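import Mathlib

/-!
# Monomials and forms: definitions
-/

set_option autoImplicit false

namespace MWS

/-- the monomials of degree `n` in `u_0, .., u_m` (given by their exponents) -/
abbrev Mo (m n : ℕ) : Type := {e : Fin (m + 1) → Fin (n + 1) // ∑ i, (e i : ℕ) = n}

/-- the value of a monomial -/
def mo {F : Type*} [CommRing F] {m n : ℕ} (u : Fin (m + 1) → F) (e : Mo m n) : F := ∏ i, u i ^ (e.1 i : ℕ)

end MWS
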