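import Pool.Agent.Lib.MP_17a322_ntCI.HMo

/-!
# Double covers of products of elliptic curves, complete intersections in products of elliptic curves and `ℙ^m`:
the definitions of the statement
-/

set_option autoImplicit false

namespace RamCov

/-- the indices of the basis `x^i` (`i ≤ d`), `x^i y` (`i ≤ d - 2`) of `L(2 d O)`, `O` the origin of the elliptic curve -/
abbrev Ix (d : ℕ) : Type := Fin (d + 1) ⊕ Fin (d - 1)

/-- the points of the curve `y² = x³ + E.1 x + E.2` over the field `K`; `none` is the point `O` at infinity -/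
def IsPt (K : Type) [Field K] (E : ℤ × ℤ) : Option (K × K) → Prop
  | none => True
  | some z => z.2 ^ 2 = z.1 ^ 3 + E.1 * z.1 + E.2

/-- the values of the basis of `L(2 d O)` at a point; at `O` the values after division by `x^d` -/
def bas (K : Type) [Field K] (d : ℕ) : Option (K × K) → Ix d → K
  | none, .inl i => if i = Fin.last d then 1 else 0
  | none, .inr _ => 0
  | some z, .inl i => z.1 ^ (i : ℕ)
  | some z, .inr i => z.1 ^ (i : ℕ) * z.2

/-- the indices of the basis of the sections of `O(2 d_1 O) ⊠ .. ⊠ O(2 d_g O)` on `E_1 × .. × E_g` -/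
abbrev IxG {g : ℕ} (d : Fin g → ℕ) : Type := (l : Fin g) → Ix (d l)

/-- the double cover `w² = F` of `E_1 × .. × E_g` has a point over `K`, where `F` is the section of
`O(2 d_1 O) ⊠ .. ⊠ O(2 d_g O)` with the coefficients `a` -/
def Cov (K : Type) [Field K] {g : ℕ} (E : Fin g → ℤ × ℤ) (d : Fin g → ℕ) (a : IxG d → ℤ) : Prop :=
  ∃ P : Fin g → Option (K × K), (∀ l, IsPt K (E l) (P l)) ∧
    IsSquare (∑ k : IxG d, (a k : K) * ∏ l, bas K (d l) (P l) (k l))

/-- the indices of the coefficients of `r` sections `F_1, .., F_r`, `F_j` a section of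
`O(2 d_{j1} O) ⊠ .. ⊠ O(2 d_{jg} O) ⊠ O(n_j)` on `E_1 × .. × E_g × ℙ^m` -/
abbrev IxC (m : ℕ) {g r : ℕ} (n : Fin r → ℕ) (d : Fin r → Fin g → ℕ) : Type :=
  Σ j : Fin r, MWS.Mo m (n j) × IxG (d j)

/-- the subvariety `F_1 = .. = F_r = 0` of `E_1 × .. × E_g × ℙ^m` has a point over `K` -/
def Com (K : Type) [Field K] {m g r : ℕ} (E : Fin g → ℤ × ℤ) (n : Fin r → ℕ) (d : Fin r → Fin g → ℕ)
    (a : IxC m n d → ℤ) : Prop :=
  ∃ (P : Fin g → Option (K × K)) (u : Fin (m + 1) → K), (∀ l, IsPt K (E l) (P l)) ∧ u ≠ 0 ∧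
    ∀ j, ∑ t : MWS.Mo m (n j) × IxG (d j), (a ⟨j, t⟩ : K) * (MWS.mo u t.1 * ∏ l, bas K (d j l) (P l) (t.2 l)) = 0

/-- `g` elliptic curves `y² = x³ + A_l x + B_l` with `|A_l| ≤ H²`, `|B_l| ≤ H³` and coefficients of absolute value at
most `H` -/
def Box {ι : Type} {g : ℕ} (H : ℕ) (z : (Fin g → ℤ × ℤ) × (ι → ℤ)) : Prop :=
  (∀ l, 4 * (z.1 l).1 ^ 3 + 27 * (z.1 l).2 ^ 2 ≠ 0 ∧ |(z.1 l).1| ≤ (H : ℤ) ^ 2 ∧ |(z.1 l).2| ≤ (H : ℤ) ^ 3) ∧
    ∀ k, |z.2 k| ≤ (H : ℤ)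

end RamCov
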