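import Pool.Agent.Lib.MP_17a322_ntCI.HMo

/-!
# LEAF HB: forms with prescribed values at one, two and three points (Mathlib only)

PROOF of `mo_prod`.  The polynomial `φ = ∏ k, ∑ i, C (L k i) * X i : MvPolynomial (Fin (m + 1)) F` is homogeneous of degree `n` (`MvPolynomial.IsHomogeneous.prod`, `.sum`, or `isHomogeneous_C_mul_X`); `w e = φ.coeff (Finsupp.equivFunOnFinite.symm fun i => (e.1 i : ℕ))`;
`eval u φ = ∑ over the support` (`MvPolynomial.eval_eq'`), and the support lies in the (injective) image of `Mo m n` (exponents of sum `n`, so each `≤ n`).  (Alternatively induction on `n`.)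
`mo_one`: `u i₀ ≠ 0`, all the `n` linear forms are `u i₀⁻¹ X_{i₀}`.
For `mo_two`, `mo_three`, `mo_gen`: linear forms with value `1` at `u` and `0` at `v` (at `v` and `t`) exist by linear independence (extend to a basis / `LinearIndependent` gives a dual functional: e.g. `LinearMap` on the span extended by
`LinearMap.exists_extend`, or `Module.exists_dual_forall_apply_eq_zero_iff`-like lemmas; every functional on `Fin (m + 1) → F` is `u ↦ ∑ i, L i * u i`, `L i` its value at `Pi.single i 1`); the remaining factors are a form with value `1` at `u`.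
-/

set_option autoImplicit false

namespace MWS

open Finset

/-- the exponents of the monomial `∏ k, u (f k)` -/
private lemma hb_fib_sum {m n : ℕ} (f : Fin n → Fin (m + 1)) :
    ∑ i, (univ.filter fun k => f k = i).card = n := by
  have h := Finset.card_eq_sum_card_fiberwise (s := (univ : Finset (Fin n))) (t := univ) (f := f)
    (fun _ _ => by simp)
  simpa using h.symm

private def hb_eF {m n : ℕ} (f : Fin n → Fin (m + 1)) : Mo m n :=
  ⟨fun i => ⟨(univ.filter fun k => f k = i).card, by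
    have h := Finset.card_le_univ (univ.filter fun k => f k = i)
    simp only [Fintype.card_fin] at h
    omega⟩, hb_fib_sum f⟩

private lemma hb_mo_eF {F : Type} [Field F] {m n : ℕ} (f : Fin n → Fin (m + 1)) (u : Fin (m + 1) → F) :
    mo u (hb_eF f) = ∏ k, u (f k) := by
  unfold mo
  rw [← Finset.prod_fiberwise (s := univ) (g := f) (f := fun k => u (f k))]
  refine Finset.prod_congr rfl fun i _ => ?_
  rw [Finset.prod_congr rfl (g := fun _ => u i) (fun k hk => by rw [(Finset.mem_filter.1 hk).2]), Finset.prod_const]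
  rfl

theorem mo_prod {F : Type} [Field F] {m n : ℕ} (L : Fin n → Fin (m + 1) → F) : ∃ w : Mo m n → F,
    ∀ u : Fin (m + 1) → F, ∑ e, w e * mo u e = ∏ k, ∑ i, L k i * u i := by
  classical
  refine ⟨fun e => ∑ f ∈ (univ : Finset (Fin n → Fin (m + 1))).filter (fun f => hb_eF f = e), ∏ k, L k (f k), fun u => ?_⟩
  rw [Finset.prod_univ_sum, Fintype.piFinset_univ,
    ← Finset.sum_fiberwise (s := (univ : Finset (Fin n → Fin (m + 1)))) (g := hb_eF)
      (f := fun f => ∏ k, L k (f k) * u (f k))]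
  refine Finset.sum_congr rfl fun e _ => ?_
  rw [Finset.sum_mul]
  refine Finset.sum_congr rfl fun f hf => ?_
  rw [← (Finset.mem_filter.1 hf).2, hb_mo_eF, ← Finset.prod_mul_distrib]

private lemma hb_dual {F : Type} [Field F] {m r : ℕ} {v : Fin r → Fin (m + 1) → F} (h : LinearIndependent F v)
    (c : Fin r → F) : ∃ L : Fin (m + 1) → F, ∀ j, ∑ i, L i * v j i = c j := by
  classical
  obtain ⟨g, hg⟩ := LinearMap.exists_extend ((Finsupp.linearCombination F c).comp h.repr)
  refine ⟨fun i => g (Pi.single i 1), fun j => ?_⟩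
  have h1 : g (v j) = c j := by
    have h2 := LinearMap.congr_fun hg ⟨v j, Submodule.subset_span ⟨j, rfl⟩⟩
    simp only [LinearMap.comp_apply, Submodule.subtype_apply] at h2
    rw [h2]
    have h3 : h.repr ⟨v j, Submodule.subset_span ⟨j, rfl⟩⟩ = Finsupp.single j 1 := h.repr_eq_single j _ rfl
    
    rw [h3]
    simp
  rw [← h1, LinearMap.pi_apply_eq_sum_univ g (v j)]
  refine Finset.sum_congr rfl fun i _ => ?_
  rw [smul_eq_mul, mul_comm]
  congr 1
  change g (Pi.single i 1) = _
  congr 1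
  funext k
  simp [Pi.single_apply, eq_comm]

theorem mo_one {F : Type} [Field F] {m n : ℕ} {u : Fin (m + 1) → F} (hu : u ≠ 0) : ∃ w : Mo m n → F,
    ∑ e, w e * mo u e = 1 := by
  obtain ⟨L, hL⟩ := hb_dual (v := ![u]) (by
    rw [linearIndependent_unique_iff]
    simpa using hu) ![1]
  obtain ⟨w, hw⟩ := mo_prod (n := n) (fun _ => L)
  refine ⟨w, ?_⟩
  rw [hw]
  have := hL 0
  simp only [Matrix.cons_val_zero] at this
  simp [this]

theorem mo_two {F : Type} [Field F] {m n : ℕ} (hn : 1 ≤ n) {u v : Fin (m + 1) → F}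
    (h : LinearIndependent F ![u, v]) : ∃ w : Mo m n → F, ∑ e, w e * mo u e = 1 ∧ ∑ e, w e * mo v e = 0 := by
  obtain ⟨L, hL⟩ := hb_dual h ![1, 0]
  obtain ⟨w, hw⟩ := mo_prod (n := n) (fun _ => L)
  have h0 := hL 0
  have h1 := hL 1
  simp only [Matrix.cons_val_zero, Matrix.cons_val_one] at h0 h1
  refine ⟨w, ?_, ?_⟩
  · rw [hw]
    simp [h0]
  · rw [hw]
    simp [h1]
    omega

theorem mo_three {F : Type} [Field F] {m n : ℕ} (hn : 2 ≤ n) {u v t : Fin (m + 1) → F}
    (h1 : LinearIndependent F ![u, v]) (h2 : LinearIndependent F ![u, t]) : ∃ w : Mo m n → F,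
    ∑ e, w e * mo u e = 1 ∧ ∑ e, w e * mo v e = 0 ∧ ∑ e, w e * mo t e = 0 := by
  obtain ⟨L, hL⟩ := hb_dual h1 ![1, 0]
  obtain ⟨M, hM⟩ := hb_dual h2 ![1, 0]
  have l0 := hL 0
  have l1 := hL 1
  have m0 := hM 0
  have m1 := hM 1
  simp only [Matrix.cons_val_zero, Matrix.cons_val_one] at l0 l1 m0 m1
  obtain ⟨w, hw⟩ := mo_prod (n := n) (fun k => if (k : ℕ) = 0 then L else M)
  refine ⟨w, ?_, ?_, ?_⟩
  · rw [hw]
    refine Finset.prod_eq_one fun k _ => ?_
    by_cases hk : (k : ℕ) = 0
    · simp [hk, l0]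
    · simp [hk, m0]
  · rw [hw]
    refine Finset.prod_eq_zero (Finset.mem_univ (⟨0, by omega⟩ : Fin n)) ?_
    simp [l1]
  · rw [hw]
    refine Finset.prod_eq_zero (Finset.mem_univ (⟨1, by omega⟩ : Fin n)) ?_
    simp [m1]

theorem mo_gen {F : Type} [Field F] {m n : ℕ} (hn : 1 ≤ n) {u v t : Fin (m + 1) → F}
    (h : LinearIndependent F ![u, v, t]) : ∃ w : Mo m n → F,
    ∑ e, w e * mo u e = 1 ∧ ∑ e, w e * mo v e = 0 ∧ ∑ e, w e * mo t e = 0 := by
  obtain ⟨L, hL⟩ := hb_dual h ![1, 0, 0]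
  obtain ⟨w, hw⟩ := mo_prod (n := n) (fun _ => L)
  have h0 := hL 0
  have h1 := hL 1
  have h2 := hL 2
  simp only [Matrix.cons_val_zero, Matrix.cons_val_one, Matrix.cons_val_two, Matrix.tail_cons, Matrix.head_cons] at h0 h1 h2
  refine ⟨w, ?_, ?_, ?_⟩
  · rw [hw]
    simp [h0]
  · rw [hw]
    simp [h1]
    omega
  · rw [hw]
    simp [h2]
    omega

end MWS
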