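import Mathlib

/-!
# LEAF HE: numerical inequalities and Bonferroni (Mathlib only)

PROOF of `ci_num`.  `a = N / p^m`, `b = (N - 1) / p^m`: `N = (p^(m+1) - 1) / (p - 1)`, so `a ≤ p / (p - 1) ≤ 11 / 10` and `N - 1 = (p^(m+1) - p) / (p - 1) ≥ p^m` (because `p^(m+1) - p ≥ p^(m+1) - p^m` for `m ≥ 1`), so `1 ≤ b ≤ a`.
The left side is `a - a b / 2 + (a b / 6) ((p - 1) / p + a) ≤ a (1 - b (2 - a) / 6) ≤ a (1 - (2 - a) / 6) = a (4 + a) / 6 ≤ 1.1 · 5.1 / 6 = 0.935 ≤ 19 / 20`.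
PROOF of `ci_num'`.  `N / p^r ≤ N / p^(m+1) ≤ 1 / (p - 1) ≤ 1 / 10`.
PROOF of `bonf3`.  Let `X w` be the number of the `u ∈ S` with `Z w u`.  `[X ≥ 1] ≤ X - X (X - 1) / 2 + X (X - 1) (X - 2) / 6` for natural numbers `X` (real arithmetic; model `VD2_bonf` of `MP_10e784_agV/VD2`).  Sum over `w`:
`∑ X = ∑_{u ∈ S} #{w | Z w u}`, `∑ X (X - 1) = ∑_{u ≠ v} #{w | Z w u, Z w v}`, `∑ X (X - 1) (X - 2) = ∑_{u ≠ v} ∑_{t ≠ u, v} #{w | ..}` (ordered tuples of distinct points: `X (X - 1) (X - 2) = ∑_{u ∈ Z} ∑_{v ∈ Z.erase u} ∑_{t ∈ (Z.erase u).erase v} 1`).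
-/

set_option autoImplicit false

namespace MWS

open Finset

theorem ci_num {p N : ℝ} {m : ℕ} (hp : 11 ≤ p) (hm : 1 ≤ m) (hN : N * (p - 1) + 1 = p ^ (m + 1)) :
    N / p ^ m - N * (N - 1) / 2 / p ^ (2 * m) +
      N * (N - 1) / 6 * ((p - 1) / p ^ (2 * m + 1) + N / p ^ (3 * m)) ≤ 19 / 20 := by
  have hp0 : 0 < p := by linarith
  have hP0 : 0 < p ^ m := pow_pos hp0 m
  have hPp : p ≤ p ^ m := by
    calc p = p ^ 1 := (pow_one p).symm
      _ ≤ p ^ m := pow_le_pow_right₀ (by linarith) hm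
  have e1 : p ^ (m + 1) = p ^ m * p := pow_succ p m
  have e2 : p ^ (2 * m) = p ^ m * p ^ m := by rw [two_mul, pow_add]
  have e3 : p ^ (2 * m + 1) = p ^ m * p ^ m * p := by rw [pow_succ, e2]
  have e4 : p ^ (3 * m) = p ^ m * p ^ m * p ^ m := by
    rw [← pow_add, ← pow_add]
    congr 1
    ring
  rw [e1] at hN
  rw [e2, e3, e4]
  generalize p ^ m = P at *
  have ha : N / P ≤ 11 / 10 := by
    rw [div_le_iff₀ hP0]
    nlinarith
  have hb : 1 ≤ (N - 1) / P := by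
    rw [le_div_iff₀ hP0, one_mul]
    nlinarith
  have hba : (N - 1) / P ≤ N / P := div_le_div_of_nonneg_right (by linarith) hP0.le
  have hc : (p - 1) / p ≤ 1 := by
    rw [div_le_one hp0]
    linarith
  have e5 : N / P - N * (N - 1) / 2 / (P * P) + N * (N - 1) / 6 * ((p - 1) / (P * P * p) + N / (P * P * P)) =
      N / P - (N / P) * ((N - 1) / P) / 2 + (N / P) * ((N - 1) / P) / 6 * ((p - 1) / p + N / P) := by
    field_simp
  rw [e5]
  generalize (N - 1) / P = b at *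
  generalize N / P = a at *
  generalize (p - 1) / p = c at *
  have hab : 0 ≤ a * b := mul_nonneg (by linarith) (by linarith)
  have h1 : a * b / 6 * (c + a) ≤ a * b / 6 * (1 + a) := mul_le_mul_of_nonneg_left (by linarith) (by positivity)
  have h2 : a * b / 2 - a * b / 6 * (1 + a) = a * b * (2 - a) / 6 := by ring
  have h3 : a * (2 - a) ≤ a * b * (2 - a) := by
    have : a * (2 - a) * 1 ≤ a * (2 - a) * b := mul_le_mul_of_nonneg_left hb (mul_nonneg (by linarith) (by linarith))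
    nlinarith
  nlinarith

theorem ci_num' {p N : ℝ} {m r : ℕ} (hp : 11 ≤ p) (hr : m + 1 ≤ r) (hN : N * (p - 1) + 1 = p ^ (m + 1)) :
    N / p ^ r ≤ 19 / 20 := by
  have hp0 : 0 < p := by linarith
  have h1 : p ^ (m + 1) ≤ p ^ r := pow_le_pow_right₀ (by linarith) hr
  have h2 : 0 < p ^ (m + 1) := pow_pos hp0 _
  have h3 : 0 < p ^ r := pow_pos hp0 _
  rw [div_le_iff₀ h3]
  nlinarith

private theorem HE_one (X : ℕ) (hX : 1 ≤ X) :
    (1 : ℝ) ≤ X - X * (X - 1) / 2 + X * (X - 1) * (X - 2) / 6 := by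
  have e : (X : ℝ) - X * (X - 1) / 2 + X * (X - 1) * (X - 2) / 6 - 1 = (X - 1) * (X - 2) * (X - 3) / 6 := by ring
  have h : (0 : ℝ) ≤ (X - 1) * (X - 2) * (X - 3) / 6 := by
    rcases Nat.lt_or_ge X 4 with h | h
    · interval_cases X <;> norm_num
    · have h4 : (4 : ℝ) ≤ X := by exact_mod_cast h
      have : 0 ≤ ((X : ℝ) - 1) * (X - 2) * (X - 3) :=
        mul_nonneg (mul_nonneg (by linarith) (by linarith)) (by linarith)
      linarith
  linarith

private theorem HE_two {P : Type} [DecidableEq P] (S : Finset P) (i : P → ℝ) (hi : ∀ u, i u * i u = i u) :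
    ∑ u ∈ S, ∑ v ∈ S.erase u, i u * i v = (∑ u ∈ S, i u) * ((∑ u ∈ S, i u) - 1) := by
  have e1 : ∀ u ∈ S, ∑ v ∈ S.erase u, i u * i v = i u * ((∑ u ∈ S, i u) - 1) := by
    intro u hu
    rw [← mul_sum]
    have h := add_sum_erase S i hu
    have h2 : ∑ v ∈ S.erase u, i v = (∑ v ∈ S, i v) - i u := by linarith
    rw [h2, mul_sub, mul_sub, hi, mul_one]
  rw [sum_congr rfl e1, ← sum_mul]

private theorem HE_three {P : Type} [DecidableEq P] (S : Finset P) (i : P → ℝ) (hi : ∀ u, i u * i u = i u) :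
    ∑ u ∈ S, ∑ v ∈ S.erase u, ∑ t ∈ (S.erase u).erase v, i u * i v * i t =
      (∑ u ∈ S, i u) * ((∑ u ∈ S, i u) - 1) * ((∑ u ∈ S, i u) - 2) := by
  have e1 : ∀ u ∈ S, ∀ v ∈ S.erase u, ∑ t ∈ (S.erase u).erase v, i u * i v * i t =
      i u * i v * ((∑ u ∈ S, i u) - 2) := by
    intro u hu v hv
    rw [← mul_sum]
    have h1 := add_sum_erase S i hu
    have h2 := add_sum_erase (S.erase u) i hv
    have h3 : ∑ t ∈ (S.erase u).erase v, i t = (∑ v ∈ S, i v) - i u - i v := by linarith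
    rw [h3]
    have h4 := hi u
    have h5 := hi v
    linear_combination (-i v) * h4 + (-i u) * h5
  rw [sum_congr rfl fun u hu => sum_congr rfl (e1 u hu)]
  have e2 : ∑ u ∈ S, ∑ v ∈ S.erase u, i u * i v * ((∑ u ∈ S, i u) - 2) =
      (∑ u ∈ S, ∑ v ∈ S.erase u, i u * i v) * ((∑ u ∈ S, i u) - 2) := by
    rw [sum_mul]
    exact sum_congr rfl fun u _ => by rw [sum_mul]
  rw [e2, HE_two S i hi]

private theorem HE_card {W : Type} [Fintype W] (φ : W → Prop) [DecidablePred φ] :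
    (Nat.card {w // φ w} : ℝ) = ∑ w : W, if φ w then (1 : ℝ) else 0 := by
  rw [Nat.card_eq_fintype_card, Fintype.card_subtype, sum_boole]

theorem bonf3 {W P : Type} [Fintype W] [DecidableEq P] (S : Finset P) (Z : W → P → Prop) (a b T : ℝ)
    (h1 : ∀ u ∈ S, (Nat.card {w // Z w u} : ℝ) ≤ a)
    (h2 : ∀ u ∈ S, ∀ v ∈ S, u ≠ v → b ≤ (Nat.card {w // Z w u ∧ Z w v} : ℝ))
    (h3 : ∀ u ∈ S, ∀ v ∈ S, u ≠ v →
      ∑ t ∈ (S.erase u).erase v, (Nat.card {w // Z w u ∧ Z w v ∧ Z w t} : ℝ) ≤ T) :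
    (Nat.card {w // ∃ u ∈ S, Z w u} : ℝ) ≤
      S.card * a - S.card * ((S.card : ℝ) - 1) / 2 * b + S.card * ((S.card : ℝ) - 1) / 6 * T := by
  classical
  let i : W → P → ℝ := fun w u => if Z w u then 1 else 0
  have hi : ∀ w u, i w u * i w u = i w u := by
    intro w u
    by_cases h : Z w u
    · simp only [i, if_pos h, mul_one]
    · simp only [i, if_neg h, mul_zero]
  have c1 : ∀ u, (Nat.card {w // Z w u} : ℝ) = ∑ w : W, i w u := fun u => HE_card _
  have c2 : ∀ u v, (Nat.card {w // Z w u ∧ Z w v} : ℝ) = ∑ w : W, i w u * i w v := by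
    intro u v
    rw [HE_card]
    refine sum_congr rfl fun w _ => ?_
    by_cases hu : Z w u <;> by_cases hv : Z w v <;> simp [i, hu, hv]
  have c3 : ∀ u v t, (Nat.card {w // Z w u ∧ Z w v ∧ Z w t} : ℝ) = ∑ w : W, i w u * i w v * i w t := by
    intro u v t
    rw [HE_card]
    refine sum_congr rfl fun w _ => ?_
    by_cases hu : Z w u <;> by_cases hv : Z w v <;> by_cases ht : Z w t <;> simp [i, hu, hv, ht]
  -- the pointwise inequality
  have hpt : ∀ w : W, (if ∃ u ∈ S, Z w u then (1 : ℝ) else 0) ≤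
      ∑ u ∈ S, i w u - (∑ u ∈ S, ∑ v ∈ S.erase u, i w u * i w v) / 2 +
        (∑ u ∈ S, ∑ v ∈ S.erase u, ∑ t ∈ (S.erase u).erase v, i w u * i w v * i w t) / 6 := by
    intro w
    rw [HE_two S (i w) (hi w), HE_three S (i w) (hi w)]
    have hX : ∑ u ∈ S, i w u = ((S.filter fun u => Z w u).card : ℝ) := by
      simp only [i, sum_boole]
    rw [hX]
    split_ifs with h
    · refine HE_one _ ?_
      obtain ⟨u, hu, hZ⟩ := h
      exact card_pos.2 ⟨u, mem_filter.2 ⟨hu, hZ⟩⟩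
    · have h0 : (S.filter fun u => Z w u) = ∅ := by
        refine filter_eq_empty_iff.2 fun u hu hZ => h ⟨u, hu, hZ⟩
      rw [h0]
      simp
  have hsum := sum_le_sum fun w (_ : w ∈ (univ : Finset W)) => hpt w
  rw [← HE_card, sum_add_distrib, sum_sub_distrib, ← sum_div, ← sum_div] at hsum
  have s1 : ∑ w : W, ∑ u ∈ S, i w u ≤ S.card * a := by
    rw [sum_comm]
    calc ∑ u ∈ S, ∑ w : W, i w u ≤ ∑ u ∈ S, a := sum_le_sum fun u hu => by
          rw [← c1]
          exact h1 u hu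
      _ = S.card * a := by rw [sum_const, nsmul_eq_mul]
  have hce : ∀ u ∈ S, ((S.erase u).card : ℝ) = (S.card : ℝ) - 1 := fun u hu => by
    rw [cast_card_erase_of_mem hu]
  have s2 : S.card * ((S.card : ℝ) - 1) * b ≤ ∑ w : W, ∑ u ∈ S, ∑ v ∈ S.erase u, i w u * i w v := by
    rw [sum_comm]
    calc S.card * ((S.card : ℝ) - 1) * b = ∑ u ∈ S, ((S.card : ℝ) - 1) * b := by
          rw [sum_const, nsmul_eq_mul]
          ring
      _ ≤ ∑ u ∈ S, ∑ w : W, ∑ v ∈ S.erase u, i w u * i w v := sum_le_sum fun u hu => by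
          rw [sum_comm, ← hce u hu]
          calc ((S.erase u).card : ℝ) * b = ∑ v ∈ S.erase u, b := by rw [sum_const, nsmul_eq_mul]
            _ ≤ ∑ v ∈ S.erase u, ∑ w : W, i w u * i w v := sum_le_sum fun v hv => by
                rw [← c2]
                exact h2 u hu v (mem_of_mem_erase hv) (ne_of_mem_erase hv).symm
  have s3 : ∑ w : W, ∑ u ∈ S, ∑ v ∈ S.erase u, ∑ t ∈ (S.erase u).erase v, i w u * i w v * i w t ≤
      S.card * ((S.card : ℝ) - 1) * T := by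
    rw [sum_comm]
    calc ∑ u ∈ S, ∑ w : W, ∑ v ∈ S.erase u, ∑ t ∈ (S.erase u).erase v, i w u * i w v * i w t ≤
          ∑ u ∈ S, ((S.card : ℝ) - 1) * T := sum_le_sum fun u hu => by
          rw [sum_comm, ← hce u hu]
          calc ∑ v ∈ S.erase u, ∑ w : W, ∑ t ∈ (S.erase u).erase v, i w u * i w v * i w t ≤
                ∑ v ∈ S.erase u, T := sum_le_sum fun v hv => by
                rw [sum_comm, sum_congr rfl fun t _ => (c3 u v t).symm]
                exact h3 u hu v (mem_of_mem_erase hv) (ne_of_mem_erase hv).symm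
            _ = ((S.erase u).card : ℝ) * T := by rw [sum_const, nsmul_eq_mul]
      _ = S.card * ((S.card : ℝ) - 1) * T := by
          rw [sum_const, nsmul_eq_mul]
          ring
  linarith

end MWS
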