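import Mathlib

/-!
# LEAF HC: representatives of the points of the projective space over `ZMod p` (Mathlib only)

PROOF of `reps`.  `S` = the image of `Projectivization.rep` (`ℙ (ZMod p) (Fin (m + 1) → ZMod p)`, `Projectivization.card`), or the vectors whose first nonzero coordinate is `1`.
Cardinality: `(v, s) ↦ s • v` is a bijection of `S × (ZMod p)ˣ` with the nonzero vectors, whose number is `p ^ (m + 1) - 1`.
PROOF of `line_card`.  `t` of the set is `a • u + b • v` with `a, b ≠ 0` (`LinearIndependent` fails for `![u, v, t]` and holds for `![u, v]`; `a = 0` would give `t` proportional to `v`, against `hS`); the map `t ↦ b / a` to the nonzero elements is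
injective (two such `t` with the same ratio are proportional, so equal by `hS`).
-/

set_option autoImplicit false

namespace MWS

open Finset

theorem reps (p m : ℕ) [Fact p.Prime] : ∃ S : Finset (Fin (m + 1) → ZMod p),
    (∀ u ∈ S, u ≠ 0) ∧ (∀ u ∈ S, ∀ v ∈ S, u ≠ v → LinearIndependent (ZMod p) ![u, v]) ∧
    (∀ u : Fin (m + 1) → ZMod p, u ≠ 0 → ∃ v ∈ S, ∃ s : ZMod p, s ≠ 0 ∧ u = s • v) ∧
    S.card * (p - 1) + 1 = p ^ (m + 1) := by
  classical
  have hfin : Finite (Projectivization (ZMod p) (Fin (m + 1) → ZMod p)) := inferInstance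
  have hft : Fintype (Projectivization (ZMod p) (Fin (m + 1) → ZMod p)) := Fintype.ofFinite _
  have hinj : Function.Injective
      (Projectivization.rep : Projectivization (ZMod p) (Fin (m + 1) → ZMod p) → _) := by
    intro v w h
    have h1 := v.mk_rep
    have h2 := w.mk_rep
    rw [← h1, ← h2]
    exact (Projectivization.mk_eq_mk_iff' (ZMod p) _ _ v.rep_nonzero w.rep_nonzero).2
      ⟨1, by rw [one_smul]; exact h.symm⟩
  refine ⟨Finset.univ.image (Projectivization.rep :
    Projectivization (ZMod p) (Fin (m + 1) → ZMod p) → _), ?_, ?_, ?_, ?_⟩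
  · intro u hu
    obtain ⟨v, _, rfl⟩ := Finset.mem_image.1 hu
    exact v.rep_nonzero
  · intro u hu v hv huv
    obtain ⟨u', _, rfl⟩ := Finset.mem_image.1 hu
    obtain ⟨v', _, rfl⟩ := Finset.mem_image.1 hv
    refine Projectivization.linearIndependent_pair_iff_ne.2 ?_
    rintro rfl
    exact huv rfl
  · intro u hu
    obtain ⟨a, ha⟩ := Projectivization.exists_smul_eq_mk_rep (ZMod p) u hu
    refine ⟨(Projectivization.mk (ZMod p) u hu).rep,
      Finset.mem_image.2 ⟨_, Finset.mem_univ _, rfl⟩, ((a⁻¹ : (ZMod p)ˣ) : ZMod p),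
      (a⁻¹ : (ZMod p)ˣ).ne_zero, ?_⟩
    rw [← ha]
    show u = (a⁻¹ : (ZMod p)ˣ) • (a • u)
    rw [inv_smul_smul]
  · rw [Finset.card_image_of_injective _ hinj, Finset.card_univ]
    have h1 := Projectivization.card' (ZMod p) (Fin (m + 1) → ZMod p)
    rw [Nat.card_eq_fintype_card, Nat.card_eq_fintype_card, Nat.card_eq_fintype_card,
      Fintype.card_fun, ZMod.card, Fintype.card_fin] at h1
    exact h1.symm

open Classical in
theorem line_card {p m : ℕ} [Fact p.Prime] (S : Finset (Fin (m + 1) → ZMod p))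
    (hS : ∀ u ∈ S, ∀ v ∈ S, u ≠ v → LinearIndependent (ZMod p) ![u, v]) {u v : Fin (m + 1) → ZMod p} (hu : u ∈ S)
    (hv : v ∈ S) (huv : u ≠ v) :
    (((S.erase u).erase v).filter fun t => ¬ LinearIndependent (ZMod p) ![u, v, t]).card ≤ p - 1 := by
  have hsp : ∀ t : Fin (m + 1) → ZMod p, ¬ LinearIndependent (ZMod p) ![u, v, t] →
      ∃ a b : ZMod p, t = a • u + b • v := by
    intro t ht
    by_contra hno
    refine ht (Fintype.linearIndependent_iff.2 fun g hg => ?_)
    rw [Fin.sum_univ_three] at hg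
    have hg' : g 0 • u + g 1 • v + g 2 • t = 0 := hg
    have h2 : g 2 = 0 := by
      by_contra h2
      refine hno ⟨-((g 2)⁻¹ * g 0), -((g 2)⁻¹ * g 1), ?_⟩
      have h3 : t = (g 2)⁻¹ • (g 2 • t) := by
        rw [smul_smul, inv_mul_cancel₀ h2, one_smul]
      have h4 : g 2 • t = -(g 0 • u) - g 1 • v := by
        have h5 : g 2 • t = (g 0 • u + g 1 • v + g 2 • t) - g 0 • u - g 1 • v := by abel
        rw [h5, hg']
        abel
      rw [h3, h4, smul_sub, smul_neg, smul_smul, smul_smul, neg_smul, neg_smul]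
      abel
    rw [h2, zero_smul, add_zero] at hg'
    have h6 := LinearIndependent.pair_iff.1 (hS u hu v hv huv) _ _ hg'
    intro i
    fin_cases i
    · exact h6.1
    · exact h6.2
    · exact h2
  have hind : ∀ x ∈ S, ∀ y ∈ S, x ≠ y → ∀ a b : ZMod p, a • x = b • y → a = 0 ∧ b = 0 := by
    intro x hx y hy hxy a b hab
    have h1 := LinearIndependent.pair_iff.1 (hS x hx y hy hxy) a (-b) (by
      rw [hab, neg_smul]
      abel)
    exact ⟨h1.1, neg_eq_zero.1 h1.2⟩
  have key : ∀ t : Fin (m + 1) → ZMod p, ∃ a b : ZMod p,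
      t ∈ ((S.erase u).erase v).filter (fun t => ¬ LinearIndependent (ZMod p) ![u, v, t]) →
        a ≠ 0 ∧ b ≠ 0 ∧ t = a • u + b • v := by
    intro t
    by_cases ht : t ∈ ((S.erase u).erase v).filter (fun t => ¬ LinearIndependent (ZMod p) ![u, v, t])
    · have h1 := Finset.mem_filter.1 ht
      obtain ⟨a, b, hab⟩ := hsp t h1.2
      have htv : t ≠ v := Finset.ne_of_mem_erase h1.1
      have htu : t ≠ u := Finset.ne_of_mem_erase (Finset.mem_of_mem_erase h1.1)
      have htS : t ∈ S := Finset.mem_of_mem_erase (Finset.mem_of_mem_erase h1.1)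
      refine ⟨a, b, fun _ => ⟨?_, ?_, hab⟩⟩
      · rintro rfl
        rw [zero_smul, zero_add] at hab
        have h2 := hind t htS v hv htv 1 b (by rw [one_smul]; exact hab)
        exact one_ne_zero h2.1
      · rintro rfl
        rw [zero_smul, add_zero] at hab
        have h2 := hind t htS u hu htu 1 a (by rw [one_smul]; exact hab)
        exact one_ne_zero h2.1
    · exact ⟨0, 0, fun h => absurd h ht⟩
  choose a b hab using key
  have hcard : ((Finset.univ : Finset (ZMod p)).erase 0).card = p - 1 := by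
    rw [Finset.card_erase_of_mem (Finset.mem_univ _), Finset.card_univ, ZMod.card]
  rw [← hcard]
  refine Finset.card_le_card_of_injOn (fun t => b t / a t) ?_ ?_
  · intro t ht
    obtain ⟨h1, h2, _⟩ := hab t ht
    exact Finset.mem_coe.2 (Finset.mem_erase.2 ⟨div_ne_zero h2 h1, Finset.mem_univ _⟩)
  · intro t ht t' ht' heq
    by_contra hne
    obtain ⟨h1, h2, h3⟩ := hab t ht
    obtain ⟨h1', h2', h3'⟩ := hab t' ht'
    have heq' : b t * a t' = b t' * a t := (div_eq_div_iff h1 h1').1 heq
    have htS : t ∈ S :=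
      Finset.mem_of_mem_erase (Finset.mem_of_mem_erase (Finset.mem_filter.1 ht).1)
    have htS' : t' ∈ S :=
      Finset.mem_of_mem_erase (Finset.mem_of_mem_erase (Finset.mem_filter.1 ht').1)
    have h4 : a t' • t = a t • t' := by
      have e1 : a t' • t = (a t' * a t) • u + (b t * a t') • v := by
        rw [mul_comm (b t), ← smul_smul, ← smul_smul, ← smul_add, ← h3]
      have e2 : a t • t' = (a t' * a t) • u + (b t' * a t) • v := by
        rw [mul_comm (b t'), mul_comm (a t'), ← smul_smul, ← smul_smul, ← smul_add, ← h3']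
      rw [e1, e2, heq']
    exact h1' (hind t htS t' htS' hne _ _ h4).1

end MWS
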