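import Pool.Agent.Lib.MP_10e784_agBG.GDefs
import Pool.Agent.Lib.MP_17a322_ntCI.HMo

/-!
# Complete intersections in products of elliptic curves and a projective space: definitions
-/

set_option autoImplicit false

namespace MWS

open Finset

/-- the index set of the coefficients of `r` sections of the line bundles `O(2 d_{j1} O) ⊠ .. ⊠ O(2 d_{jg} O) ⊠ O(n_j)`
on `E_1 × .. × E_g × ℙ^m` -/
abbrev CI (m : ℕ) {g r : ℕ} (n : Fin r → ℕ) (d : Fin r → Fin g → ℕ) : Type := Σ j : Fin r, Mo m (n j) × Tn (d j)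

/-- the value of the `j`-th section -/
def SI {F : Type*} [CommRing F] {m g r : ℕ} {n : Fin r → ℕ} {d : Fin r → Fin g → ℕ} (c : CI m n d → F)
    (z : Fin g → Option (F × F)) (u : Fin (m + 1) → F) (j : Fin r) : F :=
  ∑ t : Mo m (n j) × Tn (d j), c ⟨j, t⟩ * (mo u t.1 * tv z t.2)

/-- the local condition for the common zeros -/
def RG4 (m : ℕ) {g r : ℕ} (n : Fin r → ℕ) (d : Fin r → Fin g → ℕ) (p : ℕ) (z : Fin g → Option (ZMod p × ZMod p)) :
    Set (CI m n d → ZMod p) :=
  {c | ∃ u : Fin (m + 1) → ZMod p, u ≠ 0 ∧ ∀ j, SI c z u j = 0}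

end MWS
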