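import Pool.Agent.Lib.MP_17a322_ntCI.HDefs
import Pool.Agent.Lib.MP_17a322_ntCI.HF
import Pool.Agent.Lib.MP_10e784_agBG.GH

/-!
# LEAF HG: the density of the local condition for complete intersections

PROOF.  The map `f c = fun t : Σ j, Mo m (n j) => ∑ k, c ⟨t.1, (t.2, k)⟩ * tv z k` is additive and surjective (for every `j` there is `k j` with `tv z (k j) = 1`, `tv_ne`: `s` is the value at `c ⟨j, (e, k')⟩ = if k' = k j then s ⟨j, e⟩ else 0`).
`c ∈ RG4 .. ↔ f c ∈ {w | ∃ u ≠ 0, ∀ j, ∑ e, w ⟨j, e⟩ * mo u e = 0}` (`SI` is the sum over `Mo × Tn`: `Fintype.sum_prod_type`, `Finset.sum_mul`).  `card_surj` (HA) and `ci_dens`.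
-/

set_option autoImplicit false

namespace MWS

open Finset

theorem dens_RG4 {m g r : ℕ} (hm : m ≤ r) (n : Fin r → ℕ) (hn : ∀ j, 1 ≤ n j) (hK : m + 1 ≤ ∑ j, n j)
    (d : Fin r → Fin g → ℕ) : DensG (RG4 m n d) (1 / 20) := by
  classical
  intro p hpp hp z
  have : Fact p.Prime := ⟨hpp⟩
  choose k hk using fun j => tv_ne (d := d j) z
  let f : (CI m n d → ZMod p) →+ ((Σ j, Mo m (n j)) → ZMod p) :=
    { toFun := fun c t => ∑ k', c ⟨t.1, (t.2, k')⟩ * tv z k'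
      map_zero' := by
        funext t
        exact Finset.sum_eq_zero fun k' _ => zero_mul _
      map_add' := fun c c' => by
        funext t
        show ∑ k', (c ⟨t.1, (t.2, k')⟩ + c' ⟨t.1, (t.2, k')⟩) * tv z k' =
          ∑ k', c ⟨t.1, (t.2, k')⟩ * tv z k' + ∑ k', c' ⟨t.1, (t.2, k')⟩ * tv z k'
        rw [← Finset.sum_add_distrib]
        exact Finset.sum_congr rfl fun k' _ => add_mul _ _ _ }
  have hf : ∀ c t, f c t = ∑ k', c ⟨t.1, (t.2, k')⟩ * tv z k' := fun c t => rfl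
  have hs : Function.Surjective f := by
    intro s
    refine ⟨fun t => if t.2.2 = k t.1 then s ⟨t.1, t.2.1⟩ else 0, ?_⟩
    funext t
    rw [hf]
    rw [Finset.sum_eq_single (k t.1)]
    · show (if k t.1 = k t.1 then s ⟨t.1, t.2⟩ else 0) * tv z (k t.1) = s t
      rw [if_pos rfl, hk, mul_one]
    · intro k' _ hk'
      show (if k' = k t.1 then s ⟨t.1, t.2⟩ else 0) * tv z k' = 0
      rw [if_neg hk', zero_mul]
    · intro h
      exact absurd (Finset.mem_univ _) h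
  have h1 := card_surj f hs {w | ∃ u : Fin (m + 1) → ZMod p, u ≠ 0 ∧ ∀ j, ∑ e, w ⟨j, e⟩ * mo u e = 0}
  have h2 := ci_dens (p := p) hp hm n hn hK
  have hval : ∀ (c : CI m n d → ZMod p) (u : Fin (m + 1) → ZMod p) (j : Fin r),
      SI c z u j = ∑ e, f c ⟨j, e⟩ * mo u e := by
    intro c u j
    unfold SI
    rw [Fintype.sum_prod_type]
    refine Finset.sum_congr rfl fun e _ => ?_
    rw [hf, Finset.sum_mul]
    refine Finset.sum_congr rfl fun k' _ => ?_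
    ring
  have h3 : Nat.card (RG4 m n d p z) = Nat.card {c : CI m n d → ZMod p // f c ∈
      {w : (Σ j, Mo m (n j)) → ZMod p | ∃ u : Fin (m + 1) → ZMod p, u ≠ 0 ∧
        ∀ j, ∑ e, w ⟨j, e⟩ * mo u e = 0}} := by
    refine Nat.card_congr (Equiv.subtypeEquivRight fun c => ?_)
    show (∃ u : Fin (m + 1) → ZMod p, u ≠ 0 ∧ ∀ j, SI c z u j = 0) ↔
      ∃ u : Fin (m + 1) → ZMod p, u ≠ 0 ∧ ∀ j, ∑ e, f c ⟨j, e⟩ * mo u e = 0
    simp only [hval]
  rw [← h3] at h1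
  have hp0 : (0 : ℝ) < (p : ℝ) ^ Fintype.card (Σ j, Mo m (n j)) := by
    have : (0 : ℝ) < p := by exact_mod_cast hpp.pos
    positivity
  have h4 : (Nat.card (RG4 m n d p z) : ℝ) * (p : ℝ) ^ Fintype.card (Σ j, Mo m (n j)) =
      (Nat.card {w : (Σ j, Mo m (n j)) → ZMod p // ∃ u : Fin (m + 1) → ZMod p, u ≠ 0 ∧
        ∀ j, ∑ e, w ⟨j, e⟩ * mo u e = 0} : ℝ) * (p : ℝ) ^ Fintype.card (CI m n d) := by
    exact_mod_cast h1
  refine le_of_mul_le_mul_right ?_ hp0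
  rw [h4]
  calc _ ≤ ((1 - 1 / 20) * (p : ℝ) ^ Fintype.card (Σ j, Mo m (n j))) * (p : ℝ) ^ Fintype.card (CI m n d) :=
        mul_le_mul_of_nonneg_right h2 (by positivity)
    _ = _ := by ring

end MWS
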