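import Pool.Agent.Lib.MP_17a322_ntCI.HDefs

/-!
# LEAF HH: the local condition at a rational point of a complete intersection

PROOF.  As `adm_RG2` of `MP_10e784_agBG/GI2` (copy its private lemmas `GI2r_*`).  There are `s ≠ 0` in `ℚ` and integers `x_i` with `s u_i = x_i` and `gcd = 1` (multiply by the product of the denominators, divide by the gcd: `Finset.gcd`,
or only: integers `x_i` not all divisible by `p`: divide by the largest power of `p` dividing all of them); `mo (s • u) e = s ^ n mo u e`, so `SI .. x j = 0` for the integral vector `x`, whose residue is `≠ 0`.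
For every `j`: `bv_red hp (hd j l) (P l)` (`agV/VB1`) gives `lam_l`, `μ_l ≠ 0`; multiply the `j`-th equation by `∏ lam_l`: the residue is `(∏ μ_l) SI (residues) (fun l => rd p (P l)) (residue of x) j = 0`.
-/

set_option autoImplicit false

namespace MWS

open Finset

/-- `p`-integral with residue `r` -/
private def HHr (p : ℕ) (x : ℚ) (r : ZMod p) : Prop := ¬ p ∣ x.den ∧ rc p x = r

private theorem HHr_add {p : ℕ} (hp : p.Prime) {x y : ℚ} {r s : ZMod p} (hx : HHr p x r)
    (hy : HHr p y s) : HHr p (x + y) (r + s) := by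
  have h := rc_add hp hx.1 hy.1
  exact ⟨h.1, by rw [h.2, hx.2, hy.2]⟩

private theorem HHr_mul {p : ℕ} (hp : p.Prime) {x y : ℚ} {r s : ZMod p} (hx : HHr p x r)
    (hy : HHr p y s) : HHr p (x * y) (r * s) := by
  have h := rc_mul hp hx.1 hy.1
  exact ⟨h.1, by rw [h.2, hx.2, hy.2]⟩

private theorem HHr_int {p : ℕ} (hp : p.Prime) (a : ℤ) : HHr p (a : ℚ) (a : ZMod p) := rc_int hp a

private theorem HHr_pow {p : ℕ} (hp : p.Prime) {x : ℚ} {r : ZMod p} (hx : HHr p x r) (n : ℕ) :
    HHr p (x ^ n) (r ^ n) := by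
  induction n with
  | zero =>
    have h := HHr_int hp 1
    simpa using h
  | succ n ih =>
    rw [pow_succ, pow_succ]
    exact HHr_mul hp ih hx

private theorem HHr_sum {p : ℕ} (hp : p.Prime) {ι : Type*} (s : Finset ι) (f : ι → ℚ)
    (g : ι → ZMod p) (h : ∀ i ∈ s, HHr p (f i) (g i)) :
    HHr p (∑ i ∈ s, f i) (∑ i ∈ s, g i) := by
  classical
  induction s using Finset.induction_on with
  | empty =>
    have h := HHr_int hp 0
    simpa using h
  | insert a s ha ih =>
    rw [Finset.sum_insert ha, Finset.sum_insert ha]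
    exact HHr_add hp (h a (Finset.mem_insert_self a s))
      (ih fun i hi => h i (Finset.mem_insert_of_mem hi))

private theorem HHr_prod {p : ℕ} (hp : p.Prime) {ι : Type*} (s : Finset ι) (f : ι → ℚ)
    (g : ι → ZMod p) (h : ∀ i ∈ s, HHr p (f i) (g i)) :
    HHr p (∏ i ∈ s, f i) (∏ i ∈ s, g i) := by
  classical
  induction s using Finset.induction_on with
  | empty =>
    have h := HHr_int hp 1
    simpa using h
  | insert a s ha ih =>
    rw [Finset.prod_insert ha, Finset.prod_insert ha]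
    exact HHr_mul hp (h a (Finset.mem_insert_self a s))
      (ih fun i hi => h i (Finset.mem_insert_of_mem hi))

private theorem HHr_zero {p : ℕ} (hp : p.Prime) {r : ZMod p} (h : HHr p 0 r) : r = 0 := by
  have h1 := HHr_int hp 0
  rw [Int.cast_zero, Int.cast_zero] at h1
  rw [← h.2, h1.2]

private theorem HH_scale {m p : ℕ} (hp : p.Prime) (u : Fin (m + 1) → ℚ) (hu : u ≠ 0) :
    ∃ (s : ℚ) (x : Fin (m + 1) → ℤ), (∀ i, s * u i = x i) ∧ ∃ i, ¬ (p : ℤ) ∣ x i := by
  obtain ⟨b, hb⟩ := IsLocalization.exist_integer_multiples_of_finite (nonZeroDivisors ℤ) u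
  choose y hy using hb
  have hb0 : ((b : ℤ) : ℚ) ≠ 0 := by
    have h := nonZeroDivisors.ne_zero b.2
    exact_mod_cast h
  have hy1 : ∀ i, (y i : ℚ) = ((b : ℤ) : ℚ) * u i := fun i => by
    have h := hy i
    rw [← zsmul_eq_mul]
    exact h
  obtain ⟨x, hx, hx1⟩ := Finset.extract_gcd y (s := (Finset.univ : Finset (Fin (m + 1)))) Finset.univ_nonempty
  set G := Finset.univ.gcd y with hG
  have hG0 : (G : ℚ) ≠ 0 := by
    intro h0
    apply hu
    funext i
    have h1 : (y i : ℚ) = 0 := by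
      rw [hx i (Finset.mem_univ i), Int.cast_mul, h0, zero_mul]
    rw [hy1, mul_eq_zero] at h1
    exact h1.resolve_left hb0
  refine ⟨(b : ℤ) / G, x, fun i => ?_, ?_⟩
  · rw [div_mul_eq_mul_div, ← hy1, hx i (Finset.mem_univ i), Int.cast_mul, mul_div_cancel_left₀ _ hG0]
  · by_contra hcon
    push Not at hcon
    have h1 : (p : ℤ) ∣ Finset.univ.gcd x := Finset.dvd_gcd fun i _ => hcon i
    rw [hx1] at h1
    have h2 : IsUnit (p : ℤ) := isUnit_of_dvd_one h1
    rw [Int.isUnit_iff_natAbs_eq, Int.natAbs_natCast] at h2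
    exact hp.one_lt.ne' h2

private theorem HH_mo {F : Type*} [CommRing F] {m n : ℕ} (s : F) (u : Fin (m + 1) → F) (e : Mo m n) :
    mo (fun i => s * u i) e = s ^ n * mo u e := by
  unfold mo
  simp only [mul_pow]
  rw [Finset.prod_mul_distrib, Finset.prod_pow_eq_pow_sum, e.2]

theorem adm_RG4 {m g r : ℕ} {A B : Fin g → ℤ} {n : Fin r → ℕ} {d : Fin r → Fin g → ℕ} (hd : ∀ j l, 1 ≤ d j l)
    (a : CI m n d → ℤ) (P : (l : Fin g) → Pt ℚ (A l) (B l)) (u : Fin (m + 1) → ℚ) (hu : u ≠ 0)
    (h : ∀ j, SI (fun t => ((a t : ℤ) : ℚ)) (fun l => op (P l)) u j = 0) : AdmG (RG4 m n d) a P := by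
  intro p hp _ _
  have : Fact p.Prime := ⟨hp⟩
  obtain ⟨s, x, hx, i₀, hi₀⟩ := HH_scale hp u hu
  refine ⟨fun i => (x i : ZMod p), ?_, fun j => ?_⟩
  · intro h0
    apply hi₀
    rw [← ZMod.intCast_zmod_eq_zero_iff_dvd]
    exact congrFun h0 i₀
  · choose lam mu hl hm hk using fun l => bv_red hp (hd j l) (P l)
    have h0 : SI (fun t => ((a t : ℤ) : ℚ)) (fun l => op (P l)) (fun i => (x i : ℚ)) j = 0 := by
      have h1 : (fun i => (x i : ℚ)) = fun i => s * u i := funext fun i => (hx i).symm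
      have h2 : SI (fun t => ((a t : ℤ) : ℚ)) (fun l => op (P l)) (fun i => (x i : ℚ)) j =
          s ^ n j * SI (fun t => ((a t : ℤ) : ℚ)) (fun l => op (P l)) u j := by
        rw [h1]
        unfold SI
        rw [Finset.mul_sum]
        refine Finset.sum_congr rfl fun t _ => ?_
        rw [HH_mo]
        ring
      rw [h2, h j, mul_zero]
    have h1 : HHr p ((∏ l, lam l) * SI (fun t => ((a t : ℤ) : ℚ)) (fun l => op (P l)) (fun i => (x i : ℚ)) j)
        ((∏ l, mu l) * SI (fun t => ((a t : ℤ) : ZMod p)) (fun l => rd p (P l)) (fun i => (x i : ZMod p)) j) := by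
      unfold SI
      rw [Finset.mul_sum, Finset.mul_sum]
      refine HHr_sum hp _ _ _ fun t _ => ?_
      rw [mul_left_comm, mul_left_comm (∏ l, mu l), mul_left_comm (∏ l, lam l), mul_left_comm (∏ l, mu l)]
      refine HHr_mul hp (HHr_int hp _) (HHr_mul hp ?_ ?_)
      · unfold mo
        exact HHr_prod hp _ _ _ fun i _ => HHr_pow hp (HHr_int hp _) _
      · unfold tv
        rw [← Finset.prod_mul_distrib, ← Finset.prod_mul_distrib]
        exact HHr_prod hp _ _ _ fun l _ => hk l (t.2 l)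
    rw [h0, mul_zero] at h1
    rcases mul_eq_zero.1 (HHr_zero hp h1) with h3 | h3
    · exact absurd h3 (Finset.prod_ne_zero_iff.2 fun l _ => hm l)
    · exact h3

end MWS
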