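import Pool.Agent.Lib.MP_17a322_ntCI.HG
import Pool.Agent.Lib.MP_17a322_ntCI.HH
import Pool.Agent.Lib.MP_10e784_agBG.GG
import Pool.Agent.Lib.MP_10e784_agBG.GI1
import Pool.Agent.Lib.MP_10e784_agBG.GP

/-!
# HI: complete intersections in products of elliptic curves and a projective space (assembly)
-/

set_option autoImplicit false

namespace MWS

open Finset

theorem HI_val {m g r : ℕ} {n : Fin r → ℕ} {d : Fin r → Fin g → ℕ} (a : CI m n d → ℤ)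
    (P : Fin g → Option (ℚ × ℚ)) (u : Fin (m + 1) → ℚ) (j : Fin r) :
    ∑ t : Mo m (n j) × Tn (d j), (a ⟨j, t⟩ : ℚ) * (mo u t.1 * ∏ l, bas (d j l) (P l) (t.2 l)) =
      SI (fun t => ((a t : ℤ) : ℚ)) P u j := by
  unfold SI
  refine sum_congr rfl fun t _ => ?_
  rw [GP_tv]

/-- **All ramified double covers and all complete intersections of general type of codimension `r ≥ m` in the product
with `ℙ^m`, on all products of `g` elliptic curves over `ℚ`**, over the blocks R and P. -/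
theorem all_CI (hFR : FactR) (hFQ : FactQ) : ∃ c : ℝ, 0 < c ∧
    (∀ (g : ℕ) (d : Fin g → ℕ), (∀ l, 1 ≤ d l) → ∃ C : ℝ, ∀ H : ℕ, 1 ≤ H →
      (Nat.card {a : (Fin g → ℤ × ℤ) × (((l : Fin g) → Fin (d l + 1) ⊕ Fin (d l - 1)) → ℤ) //
        (∀ l, 4 * (a.1 l).1 ^ 3 + 27 * (a.1 l).2 ^ 2 ≠ 0 ∧ |(a.1 l).1| ≤ (H : ℤ) ^ 2 ∧ |(a.1 l).2| ≤ (H : ℤ) ^ 3) ∧
        (∀ k, |a.2 k| ≤ (H : ℤ)) ∧ ∃ P : Fin g → Option (ℚ × ℚ), (∀ l, IsPt (a.1 l).1 (a.1 l).2 (P l)) ∧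
          IsSquare (∑ k : (l : Fin g) → Fin (d l + 1) ⊕ Fin (d l - 1),
            (a.2 k : ℚ) * ∏ l, bas (d l) (P l) (k l))} : ℝ) ≤
        C * (H : ℝ) ^ ((∏ l, 2 * d l) + 5 * g) * Real.exp (-(Real.log H) ^ c)) ∧
    (∀ (g m r : ℕ) (n : Fin r → ℕ) (d : Fin r → Fin g → ℕ), m ≤ r → (∀ j, 1 ≤ n j) → m + 1 ≤ ∑ j, n j →
      (∀ j l, 1 ≤ d j l) → ∃ C : ℝ, ∀ H : ℕ, 1 ≤ H →
      (Nat.card {a : (Fin g → ℤ × ℤ) ×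
          ((Σ j : Fin r, Mo m (n j) × ((l : Fin g) → Fin (d j l + 1) ⊕ Fin (d j l - 1))) → ℤ) //
        (∀ l, 4 * (a.1 l).1 ^ 3 + 27 * (a.1 l).2 ^ 2 ≠ 0 ∧ |(a.1 l).1| ≤ (H : ℤ) ^ 2 ∧ |(a.1 l).2| ≤ (H : ℤ) ^ 3) ∧
        (∀ k, |a.2 k| ≤ (H : ℤ)) ∧ ∃ (P : Fin g → Option (ℚ × ℚ)) (u : Fin (m + 1) → ℚ),
          (∀ l, IsPt (a.1 l).1 (a.1 l).2 (P l)) ∧ u ≠ 0 ∧
          ∀ j, ∑ t : Mo m (n j) × ((l : Fin g) → Fin (d j l + 1) ⊕ Fin (d j l - 1)),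
            (a.2 ⟨j, t⟩ : ℚ) * (mo u t.1 * ∏ l, bas (d j l) (P l) (t.2 l)) = 0} : ℝ) ≤
        C * (H : ℝ) ^ (Fintype.card (CI m n d) + 5 * g) * Real.exp (-(Real.log H) ^ c)) := by
  obtain ⟨c₀, hc₀, hcore⟩ := coreG hFR hFQ
  refine ⟨c₀, hc₀, fun g d hd => ?_, fun g m r n d hm hn hK hd => ?_⟩
  · obtain ⟨C, hC⟩ := hcore g (∏ l, 2 * d l) (1 / 3) (by norm_num) (by norm_num)
    refine ⟨C, fun H hH => ?_⟩
    refine le_trans ?_ (hC H hH (Tn d) (GP_card d hd) (RG1 d) (dens_RG1 d))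
    refine GP_le (ι := Tn d) H (RG1 d) (fun a => ∃ P : Fin g → Option (ℚ × ℚ), (∀ l, IsPt (a.1 l).1 (a.1 l).2 (P l)) ∧
      IsSquare (∑ k : Tn d, (a.2 k : ℚ) * ∏ l, bas (d l) (P l) (k l))) ?_
    intro z hz h
    obtain ⟨P, hP⟩ := (GP_pt hz (fun P => IsSquare (∑ k : Tn d, (z.2 k : ℚ) * ∏ l, bas (d l) (P l) (k l)))).1 h
    simp only [GP_tv] at hP
    exact ⟨P, adm_RG1 hd z.2 P hP⟩
  · obtain ⟨C, hC⟩ := hcore g (Fintype.card (CI m n d)) (1 / 20) (by norm_num) (by norm_num)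
    refine ⟨C, fun H hH => ?_⟩
    refine le_trans ?_ (hC H hH (CI m n d) rfl (RG4 m n d) (dens_RG4 hm n hn hK d))
    refine GP_le (ι := CI m n d) H (RG4 m n d) (fun a => ∃ (P : Fin g → Option (ℚ × ℚ)) (u : Fin (m + 1) → ℚ),
      (∀ l, IsPt (a.1 l).1 (a.1 l).2 (P l)) ∧ u ≠ 0 ∧ ∀ j, ∑ t : Mo m (n j) × Tn (d j),
        (a.2 ⟨j, t⟩ : ℚ) * (mo u t.1 * ∏ l, bas (d j l) (P l) (t.2 l)) = 0) ?_
    rintro z hz ⟨P, u, h1, h2, h3⟩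
    obtain ⟨Q, hQ⟩ := (GP_pt hz (fun P => ∀ j, SI (fun t => ((z.2 t : ℤ) : ℚ)) P u j = 0)).1
      ⟨P, h1, fun j => by rw [← HI_val]; exact h3 j⟩
    exact ⟨Q, adm_RG4 hd z.2 Q u h2 hQ⟩

end MWS
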