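import Pool.Agent.Lib.MP_17a322_ntCI.HI
import Pool.Agent.Lib.MP_10e784_agBG.GL

/-!
# HJ: fixed products of elliptic curves of one type (assembly)
-/

set_option autoImplicit false

namespace MWS

open Finset

private theorem HJ_fin {ι : Type} [Fintype ι] [DecidableEq ι] (H : ℕ) (Q : (ι → ℤ) → Prop) :
    Finite {c : ι → ℤ // (∀ i, |c i| ≤ (H : ℤ)) ∧ Q c} := by
  let f : {c : ι → ℤ // (∀ i, |c i| ≤ (H : ℤ)) ∧ Q c} → (ι → (Icc (-(H : ℤ)) H : Finset ℤ)) :=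
    fun c i => ⟨c.1 i, mem_Icc.2 (abs_le.1 (c.2.1 i))⟩
  have hf : Function.Injective f := by
    intro a b hab
    refine Subtype.ext (funext fun i => ?_)
    exact congrArg (fun w => (w i : ℤ)) hab
  exact Finite.of_injective f hf

private theorem HJ_gd {g : ℕ} {D : ℤ} {α β : Fin g → ℤ} (hD : ¬ IsSquare D) (hT : ∀ l, IsType D (α l) (β l)) :
    ∃ M : ℕ, M ≠ 0 ∧ (∀ l, Gd (α l) (β l) D M) ∧ ∀ p : ℕ, p.Prime → ¬ p ∣ M → 11 ≤ p := by
  choose M hM using fun l => Res_gd hD (hT l)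
  have h0 : ∏ l, M l ≠ 0 := Finset.prod_ne_zero_iff.2 fun l _ => (hM l).2.1
  have h1 : (∏ l, M l) * 210 ≠ 0 := Nat.mul_ne_zero h0 (by norm_num)
  refine ⟨(∏ l, M l) * 210, h1, fun l => ⟨(hM l).1, h1, fun p hp hpM => ?_⟩, fun p hp hpM => ?_⟩
  · refine (hM l).2.2 p hp fun h => hpM ?_
    exact (h.trans (Finset.dvd_prod_of_mem M (Finset.mem_univ l))).mul_right 210
  · by_contra hlt
    have h2 : ¬ p ∣ 210 := fun h => hpM (h.mul_left _)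
    have h3 : p < 11 := by omega
    interval_cases p <;> revert h2 hp <;> decide

/-- **Fixed products of elliptic curves of the same type**: ramified double covers and complete intersections of general
type of codimension `r ≥ m` in the product with `ℙ^m`, with a power saving. -/
theorem fixed_CI : ∃ δ : ℝ, 0 < δ ∧
    (∀ (D : ℤ) (g : ℕ) (α β : Fin g → ℤ), ¬ IsSquare D → (∀ l, IsType D (α l) (β l)) →
      ∀ d : Fin g → ℕ, (∀ l, 1 ≤ d l) → ∃ C : ℝ, ∀ H : ℕ, 1 ≤ H →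
        (Nat.card {a : ((l : Fin g) → Fin (d l + 1) ⊕ Fin (d l - 1)) → ℤ // (∀ k, |a k| ≤ (H : ℤ)) ∧
          ∃ P : Fin g → Option (ℚ × ℚ), (∀ l, IsPt (α l) (β l) (P l)) ∧
            IsSquare (∑ k : (l : Fin g) → Fin (d l + 1) ⊕ Fin (d l - 1),
              (a k : ℚ) * ∏ l, bas (d l) (P l) (k l))} : ℝ) ≤
          C * (H : ℝ) ^ ((∏ l, (2 * (d l : ℝ))) - δ)) ∧
    (∀ (D : ℤ) (g m r : ℕ) (α β : Fin g → ℤ), ¬ IsSquare D → (∀ l, IsType D (α l) (β l)) →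
      ∀ (n : Fin r → ℕ) (d : Fin r → Fin g → ℕ), m ≤ r → (∀ j, 1 ≤ n j) → m + 1 ≤ ∑ j, n j →
      (∀ j l, 1 ≤ d j l) → ∃ C : ℝ, ∀ H : ℕ, 1 ≤ H →
        (Nat.card {a : (Σ j : Fin r, Mo m (n j) × ((l : Fin g) → Fin (d j l + 1) ⊕ Fin (d j l - 1))) → ℤ //
          (∀ k, |a k| ≤ (H : ℤ)) ∧ ∃ (P : Fin g → Option (ℚ × ℚ)) (u : Fin (m + 1) → ℚ),
          (∀ l, IsPt (α l) (β l) (P l)) ∧ u ≠ 0 ∧
          ∀ j, ∑ t : Mo m (n j) × ((l : Fin g) → Fin (d j l + 1) ⊕ Fin (d j l - 1)),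
            (a ⟨j, t⟩ : ℚ) * (mo u t.1 * ∏ l, bas (d j l) (P l) (t.2 l)) = 0} : ℝ) ≤
          C * (H : ℝ) ^ ((Fintype.card (CI m n d) : ℝ) - δ)) := by
  obtain ⟨δ₁, hδ₁, h₁, -⟩ := fixed_G
  obtain ⟨δ₂, hδ₂, hs⟩ := sieveG
  refine ⟨min δ₁ δ₂, lt_min hδ₁ hδ₂, fun D g α β hD hT d hd => ?_, fun D g m r α β hD hT n d hm hn hK hd => ?_⟩
  · obtain ⟨C, hC⟩ := h₁ D g α β hD hT d hd
    refine ⟨|C|, fun H hH => (hC H hH).trans ?_⟩
    have h1 : (1 : ℝ) ≤ H := by exact_mod_cast hH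
    refine (mul_le_mul_of_nonneg_right (le_abs_self C) (Real.rpow_nonneg (by linarith) _)).trans ?_
    refine mul_le_mul_of_nonneg_left (Real.rpow_le_rpow_of_exponent_le h1 ?_) (abs_nonneg C)
    linarith [min_le_left δ₁ δ₂]
  · obtain ⟨M, hM0, hM1, hM2⟩ := HJ_gd hD hT
    obtain ⟨C, hC⟩ := hs g D α β M hD hM1 hM0 (Fintype.card (CI m n d)) (1 / 20) (by norm_num) (by norm_num)
    refine ⟨|C|, fun H hH => ?_⟩
    have h1 := hC H hH (CI m n d) rfl (RG4 m n d) (fun p hp hpM z => dens_RG4 hm n hn hK d p hp (hM2 p hp hpM) z)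
    have h2 : (1 : ℝ) ≤ H := by exact_mod_cast hH
    have h3 : C * (H : ℝ) ^ ((Fintype.card (CI m n d) : ℝ) - δ₂) ≤
        |C| * (H : ℝ) ^ ((Fintype.card (CI m n d) : ℝ) - min δ₁ δ₂) := by
      refine (mul_le_mul_of_nonneg_right (le_abs_self C) (Real.rpow_nonneg (by linarith) _)).trans ?_
      refine mul_le_mul_of_nonneg_left (Real.rpow_le_rpow_of_exponent_le h2 ?_) (abs_nonneg C)
      linarith [min_le_right δ₁ δ₂]
    refine le_trans (le_trans ?_ h1) h3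
    have := HJ_fin (ι := CI m n d) H (fun c => ∃ P : (l : Fin g) → Pt ℚ (α l) (β l),
      ∀ p : ℕ, p.Prime → ¬ p ∣ M → (fun i => ((c i : ℤ) : ZMod p)) ∈ RG4 m n d p (fun l => rd p (P l)))
    exact_mod_cast Nat.card_le_card_of_injective
      (fun a : {a : CI m n d → ℤ // (∀ k, |a k| ≤ (H : ℤ)) ∧
          ∃ (P : Fin g → Option (ℚ × ℚ)) (u : Fin (m + 1) → ℚ), (∀ l, IsPt (α l) (β l) (P l)) ∧ u ≠ 0 ∧
            ∀ j, ∑ t : Mo m (n j) × Tn (d j), (a ⟨j, t⟩ : ℚ) * (mo u t.1 * ∏ l, bas (d j l) (P l) (t.2 l)) = 0} =>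
        (⟨a.1, a.2.1, by
          obtain ⟨P, u, h3, h4, h5⟩ := a.2.2
          obtain ⟨Q, hQ⟩ := (GP_pt (fun l => (hM1 l).1) (fun P => ∀ j, SI (fun t => ((a.1 t : ℤ) : ℚ)) P u j = 0)).1
            ⟨P, h3, fun j => by rw [← HI_val]; exact h5 j⟩
          exact ⟨Q, fun p hp hpM => adm_RG4 hd a.1 Q u h4 hQ p hp (hM2 p hp hpM)
            fun l => ((hM1 l).2.2 p hp hpM).2.1⟩⟩ :
          {c : CI m n d → ℤ // (∀ i, |c i| ≤ (H : ℤ)) ∧ ∃ P : (l : Fin g) → Pt ℚ (α l) (β l),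
            ∀ p : ℕ, p.Prime → ¬ p ∣ M → (fun i => ((c i : ℤ) : ZMod p)) ∈ RG4 m n d p (fun l => rd p (P l))}))
      (fun a b hab => Subtype.ext (congrArg (fun w => w.1) hab))

end MWS
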